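import Mathlib
import Pool.Agent.H11.FactIdx2

/-!
# Infinite factorization index

Over every infinite field `k` of characteristic two there are finite-dimensional Hopf algebras
`A ⊆ E` (of dimensions `2` and `32`) such that infinitely many pairwise non-isomorphic Hopf
algebras (of dimension `16`) are complements of `A` in `E`.
-/

set_option autoImplicit false

universe u

namespace Pool.Agent.Results.MP_d8e1db_al.InfiniteIndex

open TensorProduct Pool.Agent.H11.FactIdx

/-- The Hopf algebra `H`, embedded in `E` by `j`, is a complement of the Hopf algebra `A`,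
embedded in `E` by `i`: the map `j` is injective and the multiplication map
`A ⊗ H → E`, `a ⊗ h ↦ i a * j h`, is bijective. -/
def IsComplement {k : Type u} [Field k] {A E H : Type u} [Ring A] [HopfAlgebra k A]
    [Ring E] [HopfAlgebra k E] [Ring H] [HopfAlgebra k H]
    (i : A →ₐc[k] E) (j : H →ₐc[k] E) : Prop :=
  Function.Injective j ∧
    Function.Bijective
      (LinearMap.mul' k E ∘ₗ TensorProduct.map (i : A →ₗ[k] E) (j : H →ₗ[k] E))

/-- There are finite-dimensional Hopf algebras `A ⊆ E` over `k` (the inclusion being the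
injective bialgebra map `i`) and infinitely many pairwise non-isomorphic complements
`H 0, H 1, H 2, …` of `A` in `E`; that is, the factorization index of `A` in `E` is infinite. -/
def HasInfiniteIndex (k : Type u) [Field k] : Prop :=
  ∃ (E A : Type u) (_ : Ring E) (_ : HopfAlgebra k E) (_ : Ring A) (_ : HopfAlgebra k A)
    (i : A →ₐc[k] E),
    FiniteDimensional k E ∧ FiniteDimensional k A ∧ Function.Injective i ∧
    ∃ (H : ℕ → Type u) (_ : ∀ n, Ring (H n)) (_ : ∀ n, HopfAlgebra k (H n))
      (j : ∀ n, H n →ₐc[k] E),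
      (∀ n, IsComplement i (j n)) ∧ ∀ m n, m ≠ n → IsEmpty (H m ≃ₐc[k] H n)

/-- The finite set of parameters `n` for which `H_n` may be isomorphic to `H_m`. -/
noncomputable def cand (k : Type u) [Field k] (m : k) : Set k :=
  (fun p : k × k × k × k => (p.2.1 + m * p.2.2.2) / (p.1 + m * p.2.2.1)) ''
    (({0, 1} : Set k) ×ˢ ({0, 1} : Set k) ×ˢ ({0, 1} : Set k) ×ˢ ({0, 1} : Set k))

lemma cand_finite (k : Type u) [Field k] (m : k) : (cand k m).Finite :=
  Set.Finite.image _ ((Set.toFinite _).prod ((Set.toFinite _).prod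
    ((Set.toFinite _).prod (Set.toFinite _))))

lemma mem_cand (k : Type u) [Field k] [CharP k 2] {m n : k} (φ : H k m ≃ₐc[k] H k n) :
    n ∈ cand k m := by
  obtain ⟨a1, b1, a2, b2, h1, h2, h3, h4, h5⟩ :=
    iso_param k (φ : H k m →ₐc[k] H k n) φ.injective
  exact ⟨(a1, b1, a2, b2), ⟨h1, h2, h3, h4⟩, h5.symm⟩

lemma exists_seq (k : Type u) [Field k] [CharP k 2] [Infinite k] :
    ∃ f : ℕ → k, ∀ m n, m ≠ n → IsEmpty (H k (f m) ≃ₐc[k] H k (f n)) := by
  obtain ⟨f, -, hf⟩ := exists_seq_of_forall_finset_exists (fun _ : k => True)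
    (fun a b => b ∉ cand k a) (by
      intro s _
      have hfin : (⋃ a ∈ s, cand k a).Finite :=
        Set.Finite.biUnion s.finite_toSet (fun a _ => cand_finite k a)
      obtain ⟨y, hy⟩ := hfin.exists_notMem
      refine ⟨y, trivial, fun x hx hxy => hy ?_⟩
      simp only [Set.mem_iUnion]
      exact ⟨x, hx, hxy⟩)
  refine ⟨f, fun m n hmn => ⟨fun φ => ?_⟩⟩
  rcases lt_or_gt_of_ne hmn with h | h
  · exact hf m n h (mem_cand k φ)
  · exact hf n m h (mem_cand k φ.symm)

lemma isComplement (k : Type u) [Field k] [CharP k 2] (m : k) :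
    IsComplement (i k) (j k m) :=
  ⟨j_injective k m, mulMap_bijective k m⟩

lemma main (k : Type u) [Field k] [CharP k 2] [Infinite k] : HasInfiniteIndex k := by
  obtain ⟨f, hf⟩ := exists_seq k
  have h1 : FiniteDimensional k (E k) :=
    Module.finite_of_finrank_pos (by rw [finrank_E]; norm_num)
  have h2 : FiniteDimensional k (A k) :=
    Module.finite_of_finrank_pos (by rw [finrank_A]; norm_num)
  exact ⟨E k, A k, _, _, _, _, i k, h1, h2, i_injective k, fun n => H k (f n), _, _,
    fun n => j k (f n), fun n => isComplement k (f n), hf⟩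

/-- Infinite factorization indices of finite-dimensional Hopf algebras exist, and they occur over
every infinite field of characteristic two. -/
theorem result :
    (∃ (k : Type) (_ : Field k), HasInfiniteIndex k) ∧
      ∀ (k : Type u) [Field k] [CharP k 2] [Infinite k], HasInfiniteIndex k := by
  refine ⟨?_, fun k _ _ _ => main k⟩
  have : CharP (AlgebraicClosure (ZMod 2)) 2 :=
    charP_of_injective_algebraMap (algebraMap (ZMod 2) (AlgebraicClosure (ZMod 2))).injective 2
  have : Infinite (AlgebraicClosure (ZMod 2)) := IsAlgClosed.instInfinite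
  exact ⟨AlgebraicClosure (ZMod 2), inferInstance, main _⟩

end Pool.Agent.Results.MP_d8e1db_al.InfiniteIndex
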